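import Pool.Agent.OPG.Stmts

/-!
# Squad OPG, row FDL: size of the iterated differences of the logarithm
-/

set_option autoImplicit false

namespace Pool.Agent.OPG.H44

open Finset

/-- the derivatives of the logarithm -/
private noncomputable def gd : ℕ → ℝ → ℝ
  | 0, y => Real.log y
  | (m + 1), y => (-1) ^ m * (m.factorial : ℝ) / y ^ (m + 1)

/-- iterated differences with step 2 -/
private def Df : ℕ → (ℝ → ℝ) → ℝ → ℝ
  | 0, g, y => g y
  | (l + 1), g, y => Df l g (y + 2) - Df l g y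

private theorem gd_deriv (m : ℕ) (y : ℝ) (hy : 0 < y) : HasDerivAt (gd m) (gd (m + 1) y) y := by
  cases m with
  | zero =>
    have h1 : HasDerivAt Real.log y⁻¹ y := Real.hasDerivAt_log hy.ne'
    have h2 : gd (0 + 1) y = y⁻¹ := by
      show (-1) ^ 0 * ((Nat.factorial 0 : ℕ) : ℝ) / y ^ (0 + 1) = y⁻¹
      simp
    rw [h2]
    exact h1
  | succ m =>
    have h1 : HasDerivAt (fun x : ℝ => x ^ (m + 1)) (((m + 1 : ℕ) : ℝ) * y ^ m) y := by
      have := hasDerivAt_pow (m + 1) y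
      simpa using this
    have h2 : HasDerivAt (fun x : ℝ => (x ^ (m + 1))⁻¹)
        (-(((m + 1 : ℕ) : ℝ) * y ^ m) / (y ^ (m + 1)) ^ 2) y :=
      h1.fun_inv (by positivity)
    have h3 := h2.const_mul ((-1) ^ m * (m.factorial : ℝ))
    have h4 : gd (m + 1) = fun x : ℝ => (-1) ^ m * (m.factorial : ℝ) * (x ^ (m + 1))⁻¹ := by
      funext x
      show (-1) ^ m * (m.factorial : ℝ) / x ^ (m + 1) = _
      rw [div_eq_mul_inv]
    have h5 : gd (m + 1 + 1) y = (-1) ^ m * (m.factorial : ℝ) *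
        (-(((m + 1 : ℕ) : ℝ) * y ^ m) / (y ^ (m + 1)) ^ 2) := by
      show (-1) ^ (m + 1) * ((m + 1).factorial : ℝ) / y ^ (m + 1 + 1) = _
      rw [Nat.factorial_succ]
      push_cast
      field_simp
      ring
    rw [h4, h5]
    exact h3

private theorem Df_deriv (l : ℕ) : ∀ (m : ℕ) (y : ℝ), 0 < y →
    HasDerivAt (Df l (gd m)) (Df l (gd (m + 1)) y) y := by
  induction l with
  | zero =>
    intro m y hy
    exact gd_deriv m y hy
  | succ l ih =>
    intro m y hy
    have h1 := ih m y hy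
    have h2 : HasDerivAt (fun x => Df l (gd m) (x + 2)) (Df l (gd (m + 1)) (y + 2)) y :=
      (ih m (y + 2) (by linarith)).comp_add_const y 2
    exact h2.sub h1

private theorem Df_mean (l : ℕ) : ∀ (m : ℕ) (y : ℝ), 0 < y →
    ∃ ξ : ℝ, y ≤ ξ ∧ ξ ≤ y + 2 * l ∧ Df l (gd m) y = 2 ^ l * gd (m + l) ξ := by
  induction l with
  | zero =>
    intro m y _
    refine ⟨y, le_rfl, by simp, ?_⟩
    show gd m y = 2 ^ 0 * gd (m + 0) y
    simp
  | succ l ih =>
    intro m y hy
    obtain ⟨η, hη, hs⟩ := exists_hasDerivAt_eq_slope (Df l (gd m)) (Df l (gd (m + 1)))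
      (show y < y + 2 by linarith)
      (fun x hx => (Df_deriv l m x (by
        have := hx.1
        linarith)).continuousAt.continuousWithinAt)
      (fun x hx => Df_deriv l m x (by
        have := hx.1
        linarith))
    obtain ⟨ξ, h1, h2, h3⟩ := ih (m + 1) η (by
      have := hη.1
      linarith)
    refine ⟨ξ, ?_, ?_, ?_⟩
    · have := hη.1
      linarith
    · have := hη.2
      push_cast
      linarith
    · show Df l (gd m) (y + 2) - Df l (gd m) y = 2 ^ (l + 1) * gd (m + (l + 1)) ξ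
      have h4 : m + (l + 1) = m + 1 + l := by omega
      rw [h4, pow_succ, mul_comm (2 ^ l) 2, mul_assoc, ← h3, hs]
      ring

private theorem FD_eq (l : ℕ) : ∀ y : ℝ, FD l y = Df l (gd 0) y := by
  induction l with
  | zero =>
    intro y
    rfl
  | succ l ih =>
    intro y
    show FD l (y + 2) - FD l y = Df l (gd 0) (y + 2) - Df l (gd 0) y
    rw [ih, ih]

theorem fdl : FdlStmt := by
  intro l y hl hy
  have hl1 : (1 : ℝ) ≤ l := by exact_mod_cast hl
  have hy0 : 0 < y := by linarith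
  obtain ⟨ξ, h1, h2, h3⟩ := Df_mean l 0 y hy0
  have hξ0 : 0 < ξ := by linarith
  obtain ⟨k, rfl⟩ : ∃ k, l = k + 1 := ⟨l - 1, by omega⟩
  have h4 : |FD (k + 1) y| = 2 ^ (k + 1) * (k.factorial : ℝ) / ξ ^ (k + 1) := by
    rw [FD_eq, h3, abs_mul, abs_of_pos (by positivity : (0 : ℝ) < 2 ^ (k + 1))]
    have h5 : gd (0 + (k + 1)) ξ = (-1) ^ k * (k.factorial : ℝ) / ξ ^ (k + 1) := by
      rw [zero_add]
      rfl
    rw [h5, abs_div, abs_mul, abs_pow, abs_neg, abs_one, one_pow, one_mul,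
      abs_of_pos (by positivity : (0 : ℝ) < ξ ^ (k + 1)),
      abs_of_pos (by positivity : (0 : ℝ) < (k.factorial : ℝ)), mul_div_assoc]
  rw [h4]
  show (k.factorial : ℝ) / y ^ (k + 1) ≤ 2 ^ (k + 1) * (k.factorial : ℝ) / ξ ^ (k + 1) ∧
    2 ^ (k + 1) * (k.factorial : ℝ) / ξ ^ (k + 1) ≤ 2 ^ (k + 1) * (k.factorial : ℝ) / y ^ (k + 1)
  constructor
  · rw [div_le_div_iff₀ (by positivity) (by positivity)]
    have h6 : ξ ^ (k + 1) ≤ (2 * y) ^ (k + 1) := pow_le_pow_left₀ hξ0.le (by linarith) _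
    rw [mul_pow] at h6
    calc (k.factorial : ℝ) * ξ ^ (k + 1) ≤ (k.factorial : ℝ) * (2 ^ (k + 1) * y ^ (k + 1)) :=
          mul_le_mul_of_nonneg_left h6 (by positivity)
      _ = 2 ^ (k + 1) * (k.factorial : ℝ) * y ^ (k + 1) := by ring
  · apply div_le_div_of_nonneg_left (by positivity) (by positivity)
    exact pow_le_pow_left₀ hy0.le h1 _

end Pool.Agent.OPG.H44
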